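import Pool.Agent.helper41.CL.Spec

set_option autoImplicit false

namespace Pool.Agent.helper41.CL

open Finset

theorem WA : WA_stmt := by
  classical
  intro n G _
  have h1 : #((univ.powersetCard 2).filter fun e : Finset (Fin n) => G.IsClique (e : Set (Fin n))) = #G.edgeFinset := by
    symm
    refine card_bij (fun e _ => Sym2.toFinset e) ?_ ?_ ?_
    · intro e he
      induction e with
      | _ a b =>
        rw [SimpleGraph.mem_edgeFinset, SimpleGraph.mem_edgeSet] at he
        rw [mem_filter, mem_powersetCard, Sym2.toFinset_mk_eq]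
        refine ⟨⟨subset_univ _, card_pair he.ne⟩, ?_⟩
        rw [coe_pair, SimpleGraph.isClique_pair]
        exact fun _ => he
    · intro e _ e' _ h
      refine Sym2.ext fun x => ?_
      rw [← Sym2.mem_toFinset, ← Sym2.mem_toFinset (z := e'), h]
    · intro e he
      rw [mem_filter, mem_powersetCard] at he
      obtain ⟨a, b, hab, rfl⟩ := card_eq_two.1 he.1.2
      refine ⟨s(a, b), ?_, Sym2.toFinset_mk_eq⟩
      rw [SimpleGraph.mem_edgeFinset, SimpleGraph.mem_edgeSet]
      have h2 := he.2
      rw [coe_pair, SimpleGraph.isClique_pair] at h2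
      exact h2 hab
  have h2 := card_filter_add_card_filter_not (s := (univ : Finset (Fin n)).powersetCard 2)
    (fun e : Finset (Fin n) => G.IsClique (e : Set (Fin n)))
  rw [h1, card_powersetCard, card_univ, Fintype.card_fin] at h2
  have h3 : NE G = (univ.powersetCard 2).filter fun e : Finset (Fin n) => ¬ G.IsClique (e : Set (Fin n)) := by
    ext e
    simp only [NE, mem_filter]
  rw [h3, ← h2, add_comm]

end Pool.Agent.helper41.CL
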